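import Pool.Agent.H39Z.SSS.Spec

/-! The regularity piece of the Schur-Siegel-Smyth argument. -/

set_option autoImplicit false

namespace Pool.Agent.H803Z

open MeasureTheory Set Pool.Agent.H39Z.SSS

theorem lp_nonneg {δ : ℝ} (hδ : 0 < δ) (y : ℝ) : 0 ≤ lp δ y := by
  unfold Pool.Agent.H39Z.SSS.lp
  have h1 : 0 < min 1 (max y δ) := lt_min one_pos (lt_of_lt_of_le hδ (le_max_right _ _))
  have := Real.log_nonpos h1.le (min_le_left _ _)
  linarith

theorem lp_le {δ : ℝ} (hδ : 0 < δ) (hδ1 : δ ≤ 1) (y : ℝ) : lp δ y ≤ -Real.log δ := by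
  unfold Pool.Agent.H39Z.SSS.lp
  have : Real.log δ ≤ Real.log (min 1 (max y δ)) :=
    Real.log_le_log hδ (le_min hδ1 (le_max_right _ _))
  linarith

theorem lp_cont {δ : ℝ} (hδ : 0 < δ) : Continuous (lp δ) := by
  unfold Pool.Agent.H39Z.SSS.lp
  refine Continuous.neg (Continuous.log (by fun_prop) ?_)
  intro y
  exact (lt_min one_pos (lt_of_lt_of_le hδ (le_max_right _ _))).ne'

theorem lp_le_posPart {δ : ℝ} (hδ : 0 < δ) {y : ℝ} (hy : 0 < y) :
    lp δ y ≤ max 0 (-Real.log y) := by
  unfold Pool.Agent.H39Z.SSS.lp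
  rcases le_total 1 (max y δ) with h | h
  · rw [min_eq_left h]; simp
  · rw [min_eq_right h]
    have : Real.log y ≤ Real.log (max y δ) := Real.log_le_log hy (le_max_left _ _)
    exact le_max_of_le_right (by linarith)

theorem lp_half {δ : ℝ} (hδ : 0 < δ) {y w : ℝ} (h : y ≤ 2 * w) : lp δ w ≤ lp δ y + 1 := by
  unfold Pool.Agent.H39Z.SSS.lp
  have h1 : 0 < min 1 (max y δ) := lt_min one_pos (lt_of_lt_of_le hδ (le_max_right _ _))
  have h2 : 0 < min 1 (max w δ) := lt_min one_pos (lt_of_lt_of_le hδ (le_max_right _ _))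
  have h3 : min 1 (max y δ) ≤ 2 * min 1 (max w δ) := by
    rcases le_total 1 (max w δ) with h' | h'
    · rw [min_eq_left h']; linarith [min_le_left 1 (max y δ)]
    · rw [min_eq_right h']
      refine (min_le_right _ _).trans (max_le ?_ ?_)
      · linarith [le_max_left w δ]
      · linarith [le_max_right w δ]
  have h4 := Real.log_le_log h1 h3
  rw [Real.log_mul two_ne_zero h2.ne'] at h4
  have h5 : Real.log 2 ≤ 1 := by linarith [Real.log_le_sub_one_of_pos (show (0:ℝ) < 2 by norm_num)]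
  linarith

theorem lp_integrable {X : Type} [MeasurableSpace X] (μ : Measure X) [IsFiniteMeasure μ]
    {δ : ℝ} (hδ : 0 < δ) (hδ1 : δ ≤ 1) {f : X → ℝ} (hf : Measurable f) :
    Integrable (fun x => lp δ (f x)) μ := by
  refine Integrable.mono' (integrable_const (-Real.log δ))
    ((lp_cont hδ).measurable.comp hf).aestronglyMeasurable (ae_of_all _ fun x => ?_)
  rw [Real.norm_eq_abs, abs_of_nonneg (lp_nonneg hδ _)]
  exact lp_le hδ hδ1 _

theorem reg : S_REG := by
  intro μ _ R hS hne hint η hη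
  set g : ℝ × ℝ → ℝ := fun p => max 0 (-Real.log |p.1 - p.2|) with hg
  have hgi : Integrable g (μ.prod μ) := (integrable_zero _ _ _).sup hint.neg
  set G : ℝ → ℝ := fun x => ∫ y, g (x, y) ∂μ with hG
  have hGi : Integrable G μ := hgi.integral_prod_left
  have hG0 : ∀ x, 0 ≤ G x := fun x => integral_nonneg fun y => le_max_left _ _
  set E : ℝ := ∫ x, G x ∂μ with hE
  have hE0 : 0 ≤ E := integral_nonneg hG0
  set C0 : ℝ := E / η + 1 with hC0
  have hC0pos : 0 < C0 := by positivity
  set F : ℝ → ℝ → ℝ := fun δ x => ∫ y, lp δ |x - y| ∂μ with hF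
  have hFc : ∀ δ, 0 < δ → δ ≤ 1 → Continuous (F δ) := by
    intro δ hδ hδ1
    refine continuous_of_dominated (bound := fun _ => -Real.log δ) ?_ ?_ (integrable_const _) ?_
    · intro x
      exact ((lp_cont hδ).comp (by fun_prop)).aestronglyMeasurable
    · intro x
      refine ae_of_all _ fun y => ?_
      rw [Real.norm_eq_abs, abs_of_nonneg (lp_nonneg hδ _)]
      exact lp_le hδ hδ1 _
    · refine ae_of_all _ fun y => ?_
      exact (lp_cont hδ).comp (by fun_prop)
  set A : Set ℝ := Icc 0 R ∩ ⋂ δ ∈ Ioc (0 : ℝ) 1, {x | F δ x ≤ C0} with hA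
  have hAc : IsCompact A := by
    refine isCompact_Icc.inter_right (isClosed_biInter fun δ hδ => ?_)
    exact isClosed_le (hFc δ hδ.1 hδ.2) continuous_const
  have hAm : MeasurableSet A := hAc.isClosed.measurableSet
  refine ⟨A, C0 + 1, hAm, inter_subset_left, ?_, by positivity, ?_⟩
  · have h1 : C0 * μ.real {x | C0 ≤ G x} ≤ E :=
      mul_meas_ge_le_integral_of_nonneg (ae_of_all _ hG0) hGi C0
    have h2 : μ.real {x | C0 ≤ G x} ≤ η := by
      by_contra hcon
      push Not at hcon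
      have : C0 * η ≤ C0 * μ.real {x | C0 ≤ G x} := mul_le_mul_of_nonneg_left hcon.le hC0pos.le
      have h3 : C0 * η = E + η := by rw [hC0]; field_simp
      linarith
    have h3 : Aᶜ ≤ᵐ[μ] {x | C0 ≤ G x} := by
      filter_upwards [hS, Measure.ae_ae_of_ae_prod hne, hgi.prod_right_ae] with x hx hx2 hx3
      intro hxA
      by_contra hcon
      apply hxA
      refine ⟨hx, mem_iInter₂.2 fun δ hδ => ?_⟩
      have hcon' : G x < C0 := lt_of_not_ge hcon
      have : F δ x ≤ G x := by
        refine integral_mono_ae (lp_integrable μ hδ.1 hδ.2 (by fun_prop)) hx3 ?_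
        filter_upwards [hx2] with y hy
        exact lp_le_posPart hδ.1 (abs_pos.2 hy)
      show F δ x ≤ C0
      linarith
    have h4 : μ.real Aᶜ ≤ μ.real {x | C0 ≤ G x} :=
      ENNReal.toReal_mono (measure_ne_top _ _) (measure_mono_ae h3)
    have h5 := probReal_compl_eq_one_sub (μ := μ) hAm
    linarith
  · intro t δ hδ hδ1
    rcases A.eq_empty_or_nonempty with hA0 | hA0
    · rw [hA0]; simp; positivity
    obtain ⟨u, huA, hu⟩ := hAc.exists_isMinOn hA0
      (show ContinuousOn (fun x : ℝ => ‖(x : ℂ) - t‖) A by fun_prop)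
    have hi1 : Integrable (fun y => lp δ |u - y|) μ := lp_integrable μ hδ hδ1 (by fun_prop)
    have h1 : ∫ x in A, lp δ ‖(x : ℂ) - t‖ ∂μ ≤ ∫ x in A, (lp δ |u - x| + 1) ∂μ := by
      refine setIntegral_mono_on ?_ ?_ hAm ?_
      · exact (lp_integrable μ hδ hδ1 (by fun_prop)).integrableOn
      · exact (hi1.add (integrable_const _)).integrableOn
      · intro x hx
        apply lp_half hδ
        have h2 : ‖(u : ℂ) - t‖ ≤ ‖(x : ℂ) - t‖ := hu hx
        have h3 : |u - x| = ‖((u : ℂ) - t) - ((x : ℂ) - t)‖ := by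
          rw [sub_sub_sub_cancel_right, ← Complex.ofReal_sub, Complex.norm_real, Real.norm_eq_abs]
        rw [h3]
        linarith [norm_sub_le ((u : ℂ) - t) ((x : ℂ) - t)]
    have h2 : ∫ x in A, (lp δ |u - x| + 1) ∂μ ≤ ∫ x, (lp δ |u - x| + 1) ∂μ :=
      setIntegral_le_integral (hi1.add (integrable_const _))
        (ae_of_all _ fun x => by have := lp_nonneg hδ |u - x|; simp only [Pi.zero_apply]; linarith)
    rw [integral_add hi1 (integrable_const _)] at h2
    have h3 : F δ u ≤ C0 := mem_iInter₂.1 huA.2 δ ⟨hδ, hδ1⟩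
    simp only [integral_const, probReal_univ, smul_eq_mul, mul_one] at h2
    have h4 : F δ u = ∫ y, lp δ |u - y| ∂μ := rfl
    linarith

end Pool.Agent.H803Z
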