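import Pool.Agent.H803Z.SweetA
import Pool.Agent.H803Z.Reg

/-! The smoothing step: an arithmetic measure is replaced by one of bounded density. -/

set_option autoImplicit false

namespace Pool.Agent.H803Z

open MeasureTheory Set Polynomial Pool.Agent.H39Z.SSS

theorem aeval_cont (Q : ℤ[X]) : Continuous fun x : ℝ => aeval x Q := Q.continuous_aeval

/-- the convolution loses at most `t` per root -/
theorem conv_lower (hI : S_I1) (hT : S_T) (ν : Measure ℝ) [IsProbabilityMeasure ν] {R : ℝ}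
    (h : Supp ν R) (hA : ArT ν) {a K t : ℝ} (ha : 0 < a) (hK : 2 ≤ K)
    (hm : ∀ u : ℝ, 2 / K + (Real.log K + 3) * ν.real (Icc (u - K * a) (u + K * a)) ≤ t)
    (Q : ℤ[X]) (hQ : Q ≠ 0) {n : ℕ} {z : Fin n → ℂ} {c : ℝ} (hc : 1 ≤ c)
    (hfac : ∀ x : ℝ, |aeval x Q| = c * ∏ i, ‖(x : ℂ) - z i‖) {δ : ℝ} (hδ : 0 < δ) :
    -(n * t) ≤ ∫ y, S δ (aeval y Q) ∂(conv ν a) := by
  obtain ⟨Bd, hBd⟩ := (isCompact_Icc (a := (0 : ℝ)) (b := R)).exists_bound_of_continuousOn
    (aeval_cont Q).continuousOn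
  obtain ⟨t1, t2, t3⟩ := hT ℝ ν (fun x => aeval x Q) Bd 0 (aeval_cont Q).measurable
    (by filter_upwards [h] with x hx using hBd x hx) (fun δ hδ _ => hA Q hQ δ hδ)
  obtain ⟨c1, c2⟩ := conv_int ν a h (f := fun y => S δ (aeval y Q))
    ((S_cont hδ).comp (aeval_cont Q))
  rw [c2]
  set loss : Fin n → ℝ → ℝ := fun i x => 2 / K + (Real.log K + 3) *
      (Icc ((z i).re - K * a) ((z i).re + K * a)).indicator (fun _ => (1 : ℝ)) x with hloss
  have hli : ∀ i, Integrable (loss i) ν := fun i =>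
    (integrable_const _).add (((integrable_const _).indicator measurableSet_Icc).const_mul _)
  have hlv : ∀ i, ∫ x, loss i x ∂ν ≤ t := fun i => by
    rw [hloss, integral_add (integrable_const _)
      (((integrable_const _).indicator measurableSet_Icc).const_mul _), integral_const_mul,
      integral_indicator_const _ measurableSet_Icc]
    simpa using hm (z i).re
  have hsum : Integrable (fun x => ∑ i, loss i x) ν := integrable_finsetSum _ fun i _ => hli i
  have h1 : ∫ x, (Real.log |aeval x Q| - ∑ i, loss i x) ∂ν ≤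
      ∫ x, ∫ h, S δ (aeval (x + a * h) Q) ∂U ∂ν := by
    refine integral_mono_ae (t2.sub hsum) c1 ?_
    filter_upwards [t1] with x hx
    have hc0 : 0 < c := by linarith
    have hp' : ∏ i, ‖(x : ℂ) - z i‖ ≠ 0 := by
      intro h0
      apply hx
      rw [← abs_eq_zero, hfac, h0, mul_zero]
    have hp : ∀ i, ‖(x : ℂ) - z i‖ ≠ 0 := fun i =>
      Finset.prod_ne_zero_iff.1 hp' i (Finset.mem_univ i)
    refine le_trans (le_of_eq ?_) (poly_lower hc (aeval_cont Q) hfac x a hδ
      (fun i => Real.log ‖(x : ℂ) - z i‖ - loss i x)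
      (fun i => minor_loss hI ha hK x (z i) (norm_ne_zero_iff.1 (hp i))))
    rw [hfac, Real.log_mul hc0.ne' hp', Real.log_prod (fun i _ => hp i), Finset.sum_sub_distrib]
    ring
  rw [integral_sub t2 hsum, integral_finsetSum _ fun i _ => hli i] at h1
  have h2 : ∑ i, ∫ x, loss i x ∂ν ≤ ∑ _i : Fin n, t := Finset.sum_le_sum fun i _ => hlv i
  simp only [Finset.sum_const, Finset.card_univ, Fintype.card_fin, nsmul_eq_mul] at h2
  linarith

theorem dirac_supp : Supp (Measure.dirac (0 : ℝ)) 0 := by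
  unfold Supp
  rw [ae_dirac_eq]
  simp

/-- the long uniform law gains at least `1` per root -/
theorem unif_lower (hI : S_I1) {B : ℝ} (hB : Real.exp 4 ≤ B)
    (Q : ℤ[X]) {n : ℕ} {z : Fin n → ℂ} {c : ℝ} (hc : 1 ≤ c)
    (hfac : ∀ x : ℝ, |aeval x Q| = c * ∏ i, ‖(x : ℂ) - z i‖) {δ : ℝ} (hδ : 0 < δ) :
    (n : ℝ) ≤ ∫ y, S δ (aeval y Q) ∂(conv (Measure.dirac 0) B) := by
  have hB0 : 0 < B := (Real.exp_pos 4).trans_le hB
  obtain ⟨-, c2⟩ := conv_int (Measure.dirac 0) B dirac_supp (f := fun y => S δ (aeval y Q))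
    ((S_cont hδ).comp (aeval_cont Q))
  rw [c2, integral_dirac]
  have h4 : 4 ≤ Real.log B := by
    have := Real.log_le_log (Real.exp_pos 4) hB
    rwa [Real.log_exp] at this
  have h1 := poly_lower hc (aeval_cont Q) hfac 0 B hδ (fun _ => 1)
    (fun i => (minor_near hI hB0 _).mono (by linarith))
  simp only [Finset.sum_const, Finset.card_univ, Fintype.card_fin, nsmul_eq_mul, mul_one] at h1
  have := Real.log_nonneg hc
  linarith

theorem conv_mean (μ : Measure ℝ) [IsProbabilityMeasure μ] {R a : ℝ} (ha : 0 < a) (h : Supp μ R) :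
    ∫ y, y ∂(conv μ a) ≤ ∫ x, x ∂μ + a := by
  obtain ⟨c1, c2⟩ := conv_int μ a h (f := fun y => y) continuous_id
  have hi : Integrable (fun x : ℝ => x) μ := integrable_of_cpt μ isCompact_Icc h continuous_id
  rw [c2]
  have h1 : ∫ x, ∫ h, (x + a * h) ∂U ∂μ ≤ ∫ x, (x + a) ∂μ := by
    refine integral_mono c1 (hi.add (integrable_const _)) fun x => ?_
    have h2 : ∫ h, (x + a * h) ∂U ≤ ∫ _h, (x + a) ∂U := by
      refine integral_mono_ae (integrable_of_cpt U isCompact_Icc U_supp (by fun_prop))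
        (integrable_const _) ?_
      filter_upwards [U_ae] with h hh
      nlinarith [hh.2]
    simpa using h2
  rw [integral_add hi (integrable_const _)] at h1
  simpa using h1

/-- a quantile function of a law of bounded density has slope bounded below -/
theorem slope_of_density {μ : Measure ℝ} {q : ℝ → ℝ} (hq : Monotone q) (hmap : Measure.map q U = μ)
    {a : ℝ} (ha : 0 < a) (hd : ∀ c d, μ (Icc c d) ≤ ENNReal.ofReal ((d - c) / a))
    {s t c : ℝ} (hs : 0 ≤ s) (hst : s ≤ t) (ht : t ≤ 1) (hc : ∀ u ∈ Ioc s t, c ≤ q u)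
    (hc' : c ≤ q t) : c + a * (t - s) ≤ q t := by
  have h1 := hd c (q t)
  rw [← hmap, Measure.map_apply hq.measurable measurableSet_Icc] at h1
  have h2 : U (Ioc s t) ≤ U (q ⁻¹' Icc c (q t)) :=
    measure_mono fun u hu => ⟨hc u hu, hq hu.2⟩
  have h3 : U (Ioc s t) = ENNReal.ofReal (t - s) := by
    unfold U
    rw [Measure.restrict_apply measurableSet_Ioc,
      inter_eq_left.2 (Ioc_subset_Ioc hs ht), Real.volume_Ioc]
  rw [h3] at h2
  have h4 := (ENNReal.ofReal_le_ofReal_iff (div_nonneg (by linarith) ha.le)).1 (h2.trans h1)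
  rw [le_div_iff₀ ha] at h4
  linarith

theorem extend_slope {q : ℝ → ℝ} {a B : ℝ} (ha : 0 < a) (hB : ∀ s, q s ∈ Icc 0 B)
    (h1 : ∀ s t, 0 < s → s ≤ t → t ≤ 1 → q s + a * (t - s) ≤ q t)
    (h2 : ∀ t, 0 < t → t ≤ 1 → a * t ≤ q t) :
    ∃ q' : ℝ → ℝ, (∀ s t, s ≤ t → q' s + a * (t - s) ≤ q' t) ∧
      (∀ s ∈ Icc (0 : ℝ) 1, q' s ∈ Icc 0 B) ∧ ∀ s ∈ Ioc (0 : ℝ) 1, q' s = q s := by
  refine ⟨fun s => if s ≤ 0 then a * s else if s ≤ 1 then q s else q 1 + a * (s - 1), ?_, ?_, ?_⟩
  · intro s t hst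
    have e1 := h2 1 one_pos le_rfl
    by_cases hs0 : s ≤ 0
    · by_cases ht0 : t ≤ 0
      · simp only [hs0, ht0, if_true]; linarith
      · by_cases ht1 : t ≤ 1
        · simp only [hs0, ht0, ht1, if_true, if_false]
          have := h2 t (not_le.1 ht0) ht1
          linarith
        · simp only [hs0, ht0, ht1, if_true, if_false]
          linarith
    · have ht0 : ¬ t ≤ 0 := fun h => hs0 (hst.trans h)
      by_cases hs1 : s ≤ 1
      · by_cases ht1 : t ≤ 1
        · simp only [hs0, ht0, hs1, ht1, if_true, if_false]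
          exact h1 s t (not_le.1 hs0) hst ht1
        · simp only [hs0, ht0, hs1, ht1, if_true, if_false]
          have := h1 s 1 (not_le.1 hs0) hs1 le_rfl
          linarith
      · have ht1 : ¬ t ≤ 1 := fun h => hs1 (hst.trans h)
        simp only [hs0, ht0, hs1, ht1, if_false]
        linarith
  · intro s hs
    by_cases hs0 : s ≤ 0
    · have : s = 0 := le_antisymm hs0 hs.1
      subst this
      simp only [le_refl, if_true, mul_zero]
      exact ⟨le_rfl, (hB 0).1.trans (hB 0).2⟩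
    · simp only [hs0, hs.2, if_true, if_false]
      exact hB s
  · intro s hs
    simp only [not_le.2 hs.1, hs.2, if_true, if_false]

theorem sweet (hQ : S_QUANT) (hI : S_I1) (hS : S_SERRE) (hT : S_T) (_hW : S_W) : S_SWEET := by
  intro ν _ R ε hR hsupp hA hε
  set B : ℝ := R + 1 + Real.exp 4 with hB
  have he : 0 < Real.exp 4 := Real.exp_pos 4
  have hB1 : 1 ≤ B := by linarith
  have hB0 : 0 < B := by linarith
  set t : ℝ := min (1 / 2) (ε / (2 * B)) with ht
  have ht0 : 0 < t := lt_min (by norm_num) (by positivity)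
  have ht1 : t ≤ 1 / 2 := min_le_left _ _
  have ht2 : t * B ≤ ε / 2 := by
    have : t ≤ ε / (2 * B) := min_le_right _ _
    rw [le_div_iff₀ (by positivity)] at this
    linarith
  set K : ℝ := 4 / t with hK
  have hK2 : 2 ≤ K := by rw [hK, le_div_iff₀ ht0]; linarith
  have hK0 : 0 < K := by linarith
  have hlK : 0 < Real.log K + 3 := by
    have := Real.log_nonneg (show 1 ≤ K by linarith)
    linarith
  obtain ⟨ρ, hρ, hsm⟩ := small_mass hS ν hR hsupp hA
    (show 0 < t / (2 * (Real.log K + 3)) by positivity)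
  set a : ℝ := min (min 1 (ε / 2)) (ρ / K) with ha
  have ha0 : 0 < a := lt_min (lt_min one_pos (by positivity)) (by positivity)
  have ha1 : a ≤ 1 := (min_le_left _ _).trans (min_le_left _ _)
  have ha2 : a ≤ ε / 2 := (min_le_left _ _).trans (min_le_right _ _)
  have ha3 : K * a ≤ ρ := by
    have : a ≤ ρ / K := min_le_right _ _
    rw [le_div_iff₀ hK0] at this
    linarith
  have hm : ∀ u : ℝ, 2 / K + (Real.log K + 3) * ν.real (Icc (u - K * a) (u + K * a)) ≤ t := by
    intro u
    have h1 : ν.real (Icc (u - K * a) (u + K * a)) ≤ t / (2 * (Real.log K + 3)) :=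
      (measureReal_mono (Icc_subset_Icc (by linarith) (by linarith))).trans (hsm u)
    have h2 := mul_le_mul_of_nonneg_left h1 hlK.le
    have h3 : (Real.log K + 3) * (t / (2 * (Real.log K + 3))) = t / 2 := by field_simp
    have h4 : 2 / K = t / 2 := by rw [hK]; field_simp; norm_num
    linarith
  set μ₁ := conv ν a with hμ₁
  set μ₂ := conv (Measure.dirac 0) B with hμ₂
  have s1 : Supp μ₁ B := conv_supp ν hsupp ha0 (by linarith)
  have s2 : Supp μ₂ B := conv_supp _ dirac_supp hB0 (by linarith)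
  set μ : Measure ℝ := ENNReal.ofReal (1 - t) • μ₁ + ENNReal.ofReal t • μ₂ with hμ
  have hone : ENNReal.ofReal (1 - t) + ENNReal.ofReal t = 1 := by
    rw [← ENNReal.ofReal_add (by linarith) ht0.le]; simp
  haveI : IsProbabilityMeasure μ := ⟨by simp [hμ, hone]⟩
  have s3 : Supp μ B := by
    unfold Supp
    rw [hμ, ae_add_measure_iff]
    exact ⟨Measure.ae_smul_measure s1 _, Measure.ae_smul_measure s2 _⟩
  have hint : ∀ f : ℝ → ℝ, Continuous f →
      ∫ y, f y ∂μ = (1 - t) * ∫ y, f y ∂μ₁ + t * ∫ y, f y ∂μ₂ := by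
    intro f hf
    have i1 := integrable_of_cpt μ₁ isCompact_Icc s1 hf
    have i2 := integrable_of_cpt μ₂ isCompact_Icc s2 hf
    rw [hμ, integral_add_measure (i1.smul_measure ENNReal.ofReal_ne_top)
      (i2.smul_measure ENNReal.ofReal_ne_top), integral_smul_measure, integral_smul_measure,
      ENNReal.toReal_ofReal (by linarith), ENNReal.toReal_ofReal ht0.le]
    rfl
  have hd : ∀ c d, μ (Icc c d) ≤ ENNReal.ofReal ((d - c) / a) := by
    intro c d
    have d1 : μ₁ (Icc c d) ≤ ENNReal.ofReal ((d - c) / a) := conv_Icc ν ha0 c d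
    have d2 : μ₂ (Icc c d) ≤ ENNReal.ofReal ((d - c) / a) := by
      rcases le_or_gt c d with hcd | hcd
      · refine (conv_Icc _ hB0 c d).trans (ENNReal.ofReal_le_ofReal ?_)
        exact div_le_div_of_nonneg_left (by linarith) ha0 (by linarith)
      · rw [Icc_eq_empty (not_le.2 hcd)]; simp
    calc μ (Icc c d) = ENNReal.ofReal (1 - t) * μ₁ (Icc c d) + ENNReal.ofReal t * μ₂ (Icc c d) := by
          simp [hμ]
      _ ≤ ENNReal.ofReal (1 - t) * ENNReal.ofReal ((d - c) / a) +
          ENNReal.ofReal t * ENNReal.ofReal ((d - c) / a) := by gcongr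
      _ = ENNReal.ofReal ((d - c) / a) := by rw [← add_mul, hone, one_mul]
  have hAr : ArT μ := by
    intro Q hQ0 δ hδ
    obtain ⟨n, z, c, hc, hfac⟩ := factor Q hQ0
    rw [hint (fun y => S δ (aeval y Q)) ((S_cont hδ).comp (aeval_cont Q))]
    have e1 := conv_lower hI hT ν hsupp hA ha0 hK2 hm Q hQ0 hc hfac hδ
    have e2 := unif_lower hI (B := B) (by linarith) Q hc hfac hδ
    have e3 := mul_le_mul_of_nonneg_left e1 (show 0 ≤ 1 - t by linarith)
    have e4 := mul_le_mul_of_nonneg_left e2 ht0.le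
    have e5 : 0 ≤ t * t * n := by positivity
    nlinarith
  have hmean : ∫ y, y ∂μ ≤ ∫ x, x ∂ν + ε := by
    rw [hint (fun y => y) continuous_id]
    have e1 := conv_mean ν ha0 hsupp
    have e2 := conv_mean (Measure.dirac 0) hB0 dirac_supp
    rw [integral_dirac] at e2
    have e0 : 0 ≤ ∫ y, y ∂μ₁ := by
      refine integral_nonneg_of_ae ?_
      filter_upwards [s1] with x hx using hx.1
    have e4 := mul_le_mul_of_nonneg_left e2 ht0.le
    have e5 : 0 ≤ t * ∫ y, y ∂μ₁ := by positivity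
    nlinarith
  obtain ⟨q, hq1, hq2, hq3⟩ := hQ μ B hB0.le s3
  have hq3' : Measure.map q U = μ := hq3
  obtain ⟨q', k1, k2, k3⟩ := extend_slope (q := q) ha0 hq2
    (fun s t hs hst ht => slope_of_density hq1 hq3' ha0 hd hs.le hst ht
      (fun u hu => hq1 hu.1.le) (hq1 hst))
    (fun t ht ht' => by
      have := slope_of_density hq1 hq3' ha0 hd le_rfl ht.le ht' (c := 0)
        (fun u _ => (hq2 u).1) (hq2 t).1
      linarith)
  have hae : q' =ᵐ[U] q := by
    filter_upwards [U_ae] with s hs using k3 s hs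
  refine ⟨B, a, q', ha0, ha1, hB1, k1, k2, ?_, ?_⟩
  · have : Measure.map q' U = μ := (Measure.map_congr hae).trans hq3'
    have h2 : Measure.map q' (volume.restrict (Ioc 0 1)) = μ := this
    rw [h2]
    exact hAr
  · have h1 : ∫ s, q' s ∂U = ∫ s, q s ∂U := integral_congr_ae hae
    have h2 : ∫ y, y ∂μ = ∫ s, q s ∂U := by
      rw [← hq3']
      exact integral_map hq1.measurable.aemeasurable aestronglyMeasurable_id
    have h3 : ∫ s in Ioc (0 : ℝ) 1, q' s = ∫ s, q' s ∂U := rfl
    rw [h3, h1, ← h2]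
    exact hmean

end Pool.Agent.H803Z
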