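import Pool.Agent.H39Z.SSS.Spec

/-! Lemmas for the smoothing step: convolution with a short uniform law. -/

set_option autoImplicit false

namespace Pool.Agent.H803Z

open MeasureTheory Set Polynomial Pool.Agent.H39Z.SSS

/-- uniform law on the unit interval -/
noncomputable def U : Measure ℝ := volume.restrict (Ioc 0 1)

instance : IsProbabilityMeasure U := ⟨by simp [U]⟩

theorem U_ae : ∀ᵐ h ∂U, h ∈ Ioc (0 : ℝ) 1 := ae_restrict_mem measurableSet_Ioc

theorem U_le (s : Set ℝ) : U s ≤ volume s := Measure.restrict_le_self s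

theorem integrable_of_cpt {X : Type} [TopologicalSpace X] [T2Space X] [MeasurableSpace X]
    [OpensMeasurableSpace X] (μ : Measure X) [IsFiniteMeasure μ] {K : Set X} (hK : IsCompact K)
    (h : ∀ᵐ x ∂μ, x ∈ K) {f : X → ℝ} (hf : Continuous f) : Integrable f μ := by
  have h1 : IntegrableOn f K μ := hf.continuousOn.integrableOn_compact hK
  rwa [IntegrableOn, Measure.restrict_eq_self_of_ae_mem h] at h1

theorem prod_ae_cpt (μ ν : Measure ℝ) [IsProbabilityMeasure μ] [IsProbabilityMeasure ν]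
    {R R' : ℝ} (h : Supp μ R) (h' : Supp ν R') :
    ∀ᵐ p ∂(μ.prod ν), p ∈ Icc (0 : ℝ) R ×ˢ Icc (0 : ℝ) R' := by
  have h1 : ∀ᵐ p ∂(μ.prod ν), p.1 ∈ Icc (0 : ℝ) R :=
    (Measure.quasiMeasurePreserving_fst (μ := μ) (ν := ν)).ae h
  have h2 : ∀ᵐ p ∂(μ.prod ν), p.2 ∈ Icc (0 : ℝ) R' :=
    (Measure.quasiMeasurePreserving_snd (μ := μ) (ν := ν)).ae h'
  filter_upwards [h1, h2] with p a b using ⟨a, b⟩

theorem U_supp : Supp U 1 := by
  filter_upwards [U_ae] with h hh using ⟨hh.1.le, hh.2⟩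

theorem S_cont {δ : ℝ} (hδ : 0 < δ) : Continuous (S δ) := by
  unfold S
  refine Continuous.div_const (Continuous.log (by fun_prop) fun t => ?_) _
  positivity

theorem log_le_S {δ t : ℝ} (ht : t ≠ 0) : Real.log |t| ≤ S δ t := by
  unfold S
  have h1 : Real.log (t ^ 2) ≤ Real.log (t ^ 2 + δ ^ 2) :=
    Real.log_le_log (by positivity) (by nlinarith [sq_nonneg δ])
  rw [Real.log_pow] at h1
  rw [Real.log_abs]
  push_cast at h1
  linarith

/-- convolution with the uniform law on an interval of length `a` -/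
noncomputable def conv (μ : Measure ℝ) (a : ℝ) : Measure ℝ :=
  Measure.map (fun p : ℝ × ℝ => p.1 + a * p.2) (μ.prod U)

instance (μ : Measure ℝ) [IsProbabilityMeasure μ] (a : ℝ) : IsProbabilityMeasure (conv μ a) :=
  Measure.isProbabilityMeasure_map (by fun_prop)

theorem conv_supp (μ : Measure ℝ) [IsProbabilityMeasure μ] {R a B : ℝ} (h : Supp μ R)
    (ha : 0 < a) (hB : R + a ≤ B) : Supp (conv μ a) B := by
  unfold Supp conv
  refine (ae_map_iff (by fun_prop) (p := fun x => x ∈ Icc 0 B) measurableSet_Icc).2 ?_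
  filter_upwards [prod_ae_cpt μ U h U_supp] with p hp
  obtain ⟨⟨h1, h2⟩, h3, h4⟩ := hp
  constructor
  · positivity
  · nlinarith

theorem conv_Icc (μ : Measure ℝ) [IsProbabilityMeasure μ] {a : ℝ} (ha : 0 < a) (c d : ℝ) :
    conv μ a (Icc c d) ≤ ENNReal.ofReal ((d - c) / a) := by
  unfold conv
  have hm : Measurable (fun p : ℝ × ℝ => p.1 + a * p.2) := by fun_prop
  rw [Measure.map_apply hm measurableSet_Icc, Measure.prod_apply (hm measurableSet_Icc)]
  refine (lintegral_mono (g := fun _ => ENNReal.ofReal ((d - c) / a)) fun x => ?_).trans (by simp)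
  refine (U_le _).trans ?_
  have : Prod.mk x ⁻¹' ((fun p : ℝ × ℝ => p.1 + a * p.2) ⁻¹' Icc c d) ⊆
      Icc ((c - x) / a) ((d - x) / a) := by
    intro h hh
    simp only [mem_preimage, mem_Icc] at hh
    constructor
    · rw [div_le_iff₀ ha]; linarith [hh.1]
    · rw [le_div_iff₀ ha]; linarith [hh.2]
  refine (measure_mono this).trans ?_
  rw [Real.volume_Icc]
  apply le_of_eq
  congr 1
  ring

theorem conv_int (μ : Measure ℝ) [IsProbabilityMeasure μ] {R : ℝ} (a : ℝ) (h : Supp μ R)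
    {f : ℝ → ℝ} (hf : Continuous f) :
    Integrable (fun x => ∫ h, f (x + a * h) ∂U) μ ∧
      ∫ y, f y ∂(conv μ a) = ∫ x, ∫ h, f (x + a * h) ∂U ∂μ := by
  have hi : Integrable (fun p : ℝ × ℝ => f (p.1 + a * p.2)) (μ.prod U) :=
    integrable_of_cpt _ (isCompact_Icc.prod isCompact_Icc) (prod_ae_cpt μ U h U_supp)
      (hf.comp (by fun_prop))
  refine ⟨hi.integral_prod_left, ?_⟩
  unfold conv
  rw [integral_map (by fun_prop) hf.aestronglyMeasurable, integral_prod _ hi]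

/-- an integrable minorant of `log ‖w + a h‖` on the unit interval with integral at least `l` -/
def Minor (a : ℝ) (w : ℂ) (l : ℝ) : Prop :=
  ∃ m : ℝ → ℝ, Integrable m U ∧ (∀ᵐ h ∂U, w + (a * h : ℝ) ≠ 0 ∧ m h ≤ Real.log ‖w + (a * h : ℝ)‖) ∧
    l ≤ ∫ h, m h ∂U

theorem minor_near (hI : S_I1) {a : ℝ} (ha : 0 < a) (w : ℂ) : Minor a w (Real.log a - 3) := by
  obtain ⟨h1, h2⟩ := hI 0 1 (-w.re / a) one_pos
  rw [zero_add] at h1 h2
  rw [Real.sqrt_one, integral_Icc_eq_integral_Ioc] at h2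
  have h1' : Integrable (fun x => 1 / √|x - -w.re / a|) U := h1.mono_set Ioc_subset_Icc_self
  have h2' : ∫ x, 1 / √|x - -w.re / a| ∂U ≤ 4 * 1 := h2
  refine ⟨fun h => (Real.log a + 2 - 2 * Real.log 4) - (1 / √|h - -w.re / a|) / 2,
    (integrable_const _).sub (h1'.div_const 2), ?_, ?_⟩
  · have hne : ∀ᵐ h ∂U, h ≠ -w.re / a := by
      unfold U
      exact ae_restrict_of_ae (by simpa using (volume : Measure ℝ).ae_ne (-w.re / a))
    filter_upwards [hne] with h hh
    have hy : 0 < |h - -w.re / a| := abs_pos.2 (sub_ne_zero.2 hh)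
    have h3 : a * |h - -w.re / a| ≤ ‖w + (a * h : ℝ)‖ := by
      refine le_trans (le_of_eq ?_) (Complex.abs_re_le_norm _)
      rw [← abs_of_pos ha, ← abs_mul, abs_of_pos ha]
      congr 1
      simp only [Complex.add_re, Complex.ofReal_re]
      field_simp
      ring
    have h4 : 0 < a * |h - -w.re / a| := by positivity
    refine ⟨norm_pos_iff.1 (h4.trans_le h3), ?_⟩
    have h5 := Real.log_le_log h4 h3
    rw [Real.log_mul ha.ne' hy.ne'] at h5
    set y := |h - -w.re / a| with hy'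
    have hs : 0 < √y := Real.sqrt_pos.2 hy
    have h6 := Real.log_le_sub_one_of_pos (show 0 < 1 / √y / 4 by positivity)
    rw [Real.log_div (by positivity) (by norm_num), Real.log_div one_ne_zero hs.ne', Real.log_one,
      Real.log_sqrt hy.le] at h6
    linarith
  · rw [integral_sub (integrable_const _) (h1'.div_const 2), integral_div]
    simp only [integral_const, probReal_univ, smul_eq_mul, one_mul]
    have h7 : Real.log 4 = 2 * Real.log 2 := by
      rw [show (4 : ℝ) = 2 ^ 2 by norm_num, Real.log_pow]; norm_num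
    have := Real.log_two_lt_d9
    linarith

theorem minor_far {a K : ℝ} (ha : 0 < a) (hK : 2 ≤ K) (w : ℂ) (hw : K * a ≤ ‖w‖) :
    Minor a w (Real.log ‖w‖ - 2 / K) := by
  refine ⟨fun _ => Real.log ‖w‖ - 2 / K, integrable_const _, ?_, by simp⟩
  filter_upwards [U_ae] with h hh
  have hK0 : 0 < K := by linarith
  have hw0 : 0 < ‖w‖ := lt_of_lt_of_le (by positivity) hw
  have h1 : ‖((a * h : ℝ) : ℂ)‖ ≤ ‖w‖ / K := by
    rw [Complex.norm_real, Real.norm_eq_abs, abs_of_pos (mul_pos ha hh.1), le_div_iff₀ hK0]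
    nlinarith [hh.1, hh.2, mul_pos ha hK0]
  have h2 : ‖w‖ * (1 - 1 / K) ≤ ‖w + (a * h : ℝ)‖ := by
    have := norm_sub_norm_le w (-((a * h : ℝ) : ℂ))
    rw [sub_neg_eq_add, norm_neg] at this
    have h3 : ‖w‖ * (1 - 1 / K) = ‖w‖ - ‖w‖ / K := by ring
    linarith
  have hk : 1 / K ≤ 1 / 2 := one_div_le_one_div_of_le (by norm_num) hK
  have hk0 : 0 < 1 / K := by positivity
  have h3 : 0 < 1 - 1 / K := by linarith
  have h4 : 0 < ‖w‖ * (1 - 1 / K) := by positivity
  refine ⟨norm_pos_iff.1 (h4.trans_le h2), ?_⟩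
  have h5 := Real.log_le_log h4 h2
  rw [Real.log_mul hw0.ne' h3.ne'] at h5
  have h6 := Real.one_sub_inv_le_log_of_pos h3
  have h7 : (1 - 1 / K)⁻¹ ≤ 1 + 2 * (1 / K) := by
    rw [inv_le_iff_one_le_mul₀ h3]
    nlinarith
  have h8 : 2 / K = 2 * (1 / K) := by ring
  linarith

theorem Minor.mono {a : ℝ} {w : ℂ} {l l' : ℝ} (h : Minor a w l) (hl : l' ≤ l) : Minor a w l' := by
  obtain ⟨m, h1, h2, h3⟩ := h
  exact ⟨m, h1, h2, hl.trans h3⟩

theorem minor_loss (hI : S_I1) {a K : ℝ} (ha : 0 < a) (hK : 2 ≤ K) (x : ℝ) (z : ℂ)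
    (hxz : (x : ℂ) - z ≠ 0) :
    Minor a ((x : ℂ) - z) (Real.log ‖(x : ℂ) - z‖ - (2 / K + (Real.log K + 3) *
      (Icc (z.re - K * a) (z.re + K * a)).indicator (fun _ => (1 : ℝ)) x)) := by
  have hK0 : 0 < K := by linarith
  have hlK : 0 ≤ Real.log K := Real.log_nonneg (by linarith)
  rcases le_or_gt (K * a) ‖(x : ℂ) - z‖ with h | h
  · refine (minor_far ha hK _ h).mono ?_
    have : 0 ≤ (Icc (z.re - K * a) (z.re + K * a)).indicator (fun _ => (1 : ℝ)) x :=
      indicator_nonneg (fun _ _ => zero_le_one) x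
    have : 0 ≤ (Real.log K + 3) *
      (Icc (z.re - K * a) (z.re + K * a)).indicator (fun _ => (1 : ℝ)) x := by positivity
    linarith
  · refine (minor_near hI ha _).mono ?_
    have h1 : |x - z.re| ≤ ‖(x : ℂ) - z‖ := by
      simpa using Complex.abs_re_le_norm ((x : ℂ) - z)
    have h2 : x ∈ Icc (z.re - K * a) (z.re + K * a) := by
      have := abs_le.1 (h1.trans h.le)
      constructor <;> linarith [this.1, this.2]
    rw [indicator_of_mem h2]
    have h3 := Real.log_le_log (norm_pos_iff.2 hxz) h.le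
    rw [Real.log_mul hK0.ne' ha.ne'] at h3
    have : 0 < 2 / K := by positivity
    linarith

theorem factor (Q : ℤ[X]) (hQ : Q ≠ 0) :
    ∃ (n : ℕ) (z : Fin n → ℂ) (c : ℝ), 1 ≤ c ∧
      ∀ x : ℝ, |aeval x Q| = c * ∏ i, ‖(x : ℂ) - z i‖ := by
  set P : ℂ[X] := Q.map (Int.castRingHom ℂ) with hP
  have hs : P.Splits := IsAlgClosed.splits P
  obtain ⟨l, hl⟩ : ∃ l : List ℂ, (l : Multiset ℂ) = P.roots := Quotient.exists_rep _
  refine ⟨l.length, l.get, |(Q.leadingCoeff : ℝ)|, ?_, fun x => ?_⟩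
  · have h1 : Q.leadingCoeff ≠ 0 := leadingCoeff_ne_zero.2 hQ
    have h2 : (1 : ℤ) ≤ |Q.leadingCoeff| := Int.one_le_abs h1
    exact_mod_cast h2
  · have h1 : ((aeval x Q : ℝ) : ℂ) = P.eval (x : ℂ) := by
      rw [hP, eval_map, ← algebraMap_int_eq, ← aeval_def]
      exact (aeval_algHom_apply (Complex.ofRealAm.restrictScalars ℤ) x Q).symm
    have h2 := hs.eval_eq_prod_roots (x : ℂ)
    have h3 : P.leadingCoeff = (Q.leadingCoeff : ℂ) := by
      rw [hP, leadingCoeff_map_of_injective (RingHom.injective_int _)]; simp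
    rw [← h1, ← hl, h3, Multiset.map_coe, Multiset.prod_coe] at h2
    have h4 : (l.map fun a => (x : ℂ) - a).prod = ∏ i, ((x : ℂ) - l.get i) := by
      rw [← List.prod_ofFn]
      congr 1
      conv_lhs => rw [← List.ofFn_get l]
      rw [List.map_ofFn]
      rfl
    have h5 := congrArg norm h2
    rw [h4, norm_mul, norm_prod, Complex.norm_real, Real.norm_eq_abs, Complex.norm_intCast] at h5
    exact h5

theorem poly_lower {n : ℕ} {z : Fin n → ℂ} {c : ℝ} (hc : 1 ≤ c) {f : ℝ → ℝ} (hf : Continuous f)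
    (hfac : ∀ x : ℝ, |f x| = c * ∏ i, ‖(x : ℂ) - z i‖) (x a : ℝ) {δ : ℝ} (hδ : 0 < δ)
    (l : Fin n → ℝ) (hl : ∀ i, Minor a ((x : ℂ) - z i) (l i)) :
    Real.log c + ∑ i, l i ≤ ∫ h, S δ (f (x + a * h)) ∂U := by
  choose m hm1 hm2 hm3 using hl
  have hi : Integrable (fun h => ∑ i, m i h) U := integrable_finsetSum _ fun i _ => hm1 i
  have h1 : ∫ h, (Real.log c + ∑ i, m i h) ∂U ≤ ∫ h, S δ (f (x + a * h)) ∂U := by
    refine integral_mono_ae ((integrable_const _).add hi)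
      (integrable_of_cpt U isCompact_Icc U_supp ((S_cont hδ).comp (by fun_prop))) ?_
    filter_upwards [ae_all_iff.2 hm2] with h hh
    have he : ∀ i, ((x + a * h : ℝ) : ℂ) - z i = (x : ℂ) - z i + (a * h : ℝ) := by
      intro i; push_cast; ring
    have hc0 : 0 < c := by linarith
    have hp : ∀ i, ‖((x + a * h : ℝ) : ℂ) - z i‖ ≠ 0 := fun i => by
      rw [he]; exact norm_ne_zero_iff.2 (hh i).1
    have hp' : ∏ i, ‖((x + a * h : ℝ) : ℂ) - z i‖ ≠ 0 := Finset.prod_ne_zero_iff.2 fun i _ => hp i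
    have hne : f (x + a * h) ≠ 0 := by
      rw [← abs_ne_zero, hfac]
      exact mul_ne_zero hc0.ne' hp'
    refine le_trans ?_ (log_le_S hne)
    rw [hfac, Real.log_mul hc0.ne' hp', Real.log_prod (fun i _ => hp i)]
    have : ∑ i, m i h ≤ ∑ i, Real.log ‖((x + a * h : ℝ) : ℂ) - z i‖ :=
      Finset.sum_le_sum fun i _ => by rw [he]; exact (hh i).2
    linarith
  rw [integral_add (integrable_const _) hi, integral_finsetSum _ fun i _ => hm1 i] at h1
  simp only [integral_const, probReal_univ, smul_eq_mul, one_mul] at h1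
  have : ∑ i, l i ≤ ∑ i, ∫ h, m i h ∂U := Finset.sum_le_sum fun i _ => hm3 i
  linarith

theorem small_mass (hS : S_SERRE) (ν : Measure ℝ) [IsProbabilityMeasure ν] {R : ℝ} (hR : 0 < R)
    (h : Supp ν R) (hA : ArT ν) {κ : ℝ} (hκ : 0 < κ) :
    ∃ ρ : ℝ, 0 < ρ ∧ ∀ u : ℝ, ν.real (Icc (u - ρ) (u + ρ)) ≤ κ := by
  set M : ℝ := Real.log (R ^ 2 + 1) / 2 with hM
  have hM0 : 0 ≤ M := by
    have := Real.log_nonneg (show 1 ≤ R ^ 2 + 1 by nlinarith)
    positivity
  set Λ : ℝ := M / κ ^ 2 + 1 with hΛ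
  have hΛ0 : 0 < Λ := by positivity
  set ρ : ℝ := Real.exp (-Λ) / 3 with hρ
  have hρ0 : 0 < ρ := by positivity
  have hρ1 : ρ ≤ 1 := by
    have : Real.exp (-Λ) ≤ 1 := Real.exp_le_one_iff.2 (by linarith)
    linarith
  refine ⟨ρ, hρ0, fun u => ?_⟩
  set I : Set ℝ := Icc (u - ρ) (u + ρ) with hI
  have hIm : MeasurableSet I := measurableSet_Icc
  have h0 := hS ν R hR h hA ρ hρ0
  have hi : Integrable (fun p : ℝ × ℝ => S ρ (p.2 - p.1)) (ν.prod ν) :=
    integrable_of_cpt _ (isCompact_Icc.prod isCompact_Icc) (prod_ae_cpt ν ν h h)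
      ((S_cont hρ0).comp (by fun_prop))
  have h1 : En ρ ν ν = ∫ p, S ρ (p.2 - p.1) ∂(ν.prod ν) := by
    rw [integral_prod _ hi]; rfl
  have hj : Integrable ((I ×ˢ I).indicator fun _ => Λ) (ν.prod ν) :=
    (integrable_const _).indicator (hIm.prod hIm)
  have h2 : ∫ p, S ρ (p.2 - p.1) ∂(ν.prod ν) ≤
      ∫ p, (M - (I ×ˢ I).indicator (fun _ => Λ) p) ∂(ν.prod ν) := by
    refine integral_mono_ae hi ((integrable_const _).sub hj) ?_
    filter_upwards [prod_ae_cpt ν ν h h] with p hp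
    obtain ⟨⟨a1, a2⟩, a3, a4⟩ := hp
    by_cases hp' : p ∈ I ×ˢ I
    · rw [indicator_of_mem hp']
      obtain ⟨⟨b1, b2⟩, b3, b4⟩ := hp'
      have c1 : (p.2 - p.1) ^ 2 + ρ ^ 2 ≤ Real.exp (-Λ) ^ 2 := by
        have : Real.exp (-Λ) = 3 * ρ := by rw [hρ]; ring
        rw [this]
        nlinarith
      have c2 := Real.log_le_log (by positivity) c1
      rw [Real.log_pow, Real.log_exp] at c2
      unfold S
      push_cast at c2
      linarith
    · rw [indicator_of_notMem hp', sub_zero, hM]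
      unfold S
      have c1 : (p.2 - p.1) ^ 2 + ρ ^ 2 ≤ R ^ 2 + 1 := by nlinarith
      have c2 := Real.log_le_log (by positivity) c1
      linarith
  rw [integral_sub (integrable_const _) hj, integral_indicator_const _ (hIm.prod hIm),
    measureReal_prod_prod] at h2
  simp only [integral_const, probReal_univ, smul_eq_mul, one_mul] at h2
  by_contra hcon
  push Not at hcon
  have h3 : κ ^ 2 ≤ ν.real I * ν.real I := by nlinarith
  have h4 : κ ^ 2 * Λ = M + κ ^ 2 := by rw [hΛ]; field_simp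
  have h5 : κ ^ 2 * Λ ≤ ν.real I * ν.real I * Λ := mul_le_mul_of_nonneg_right h3 hΛ0.le
  have : 0 < κ ^ 2 := by positivity
  linarith

end Pool.Agent.H803Z
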